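import Pool.Agent.Q199.SY.Stm

/-! Job SY (DIS) of project SY: a point is sampled from its conditional law by uniform noise. -/

open MeasureTheory ProbabilityTheory Set
open scoped ENNReal

namespace Pool.Agent.Q212.SY

open Pool.Agent.Q199.SY

/-- disintegration by uniform noise -/
theorem t_dis : S_dis := by
  intro X Y _ _ _ _ m _ D hD
  obtain ⟨Φ, hΦ, hmap⟩ := Kernel.exists_measurable_map_eq_unitInterval (condDistrib id D m)
  refine ⟨Φ, hΦ, ?_⟩
  have hD' : IsProbabilityMeasure (m.map D) := Measure.isProbabilityMeasure_map hD.aemeasurable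
  have h1 : (m.map D) ⊗ₘ condDistrib id D m = m.map fun x => (D x, x) :=
    compProd_map_condDistrib (μ := m) (X := D) (Y := (id : X → X)) aemeasurable_id
  rw [← h1]
  have hm : Measurable fun p : Y × unitInterval => (p.1, Φ p.1 p.2) :=
    measurable_fst.prodMk hΦ
  ext s hs
  rw [Measure.map_apply hm hs, Measure.prod_apply (hm hs), Measure.compProd_apply hs]
  refine lintegral_congr fun y => ?_
  have hy : Measurable (Φ y) := hΦ.comp measurable_prodMk_left
  rw [← hmap y, Measure.map_apply hy (measurable_prodMk_left hs)]
  rfl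

end Pool.Agent.Q212.SY
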