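import Pool.Agent.Q199.SY.Stm

/-! Job SY17 of project SY: the greedy construction. -/

open MeasureTheory ProbabilityTheory Set
open scoped ENNReal

namespace Pool.Agent.Q212.SY

open Pool.Agent.Q199.SY

lemma iInter_cons {U X : Type} (b : U → Set X) (u : U) (us : List U) :
    (⋂ x ∈ u :: us, b x) = b u ∩ ⋂ x ∈ us, b x := by
  ext t
  simp

lemma meas_iInter {U X : Type} [MeasurableSpace X] {b : U → Set X}
    (hb : ∀ u, MeasurableSet (b u)) : ∀ us : List U, MeasurableSet (⋂ x ∈ us, b x)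
  | [] => by simp
  | u :: us => by
      rw [iInter_cons]
      exact (hb u).inter (meas_iInter hb us)

/-- adding a condition on the second coordinate -/
lemma step_right {X : Type} [MeasurableSpace X] {P R : Measure X} [IsProbabilityMeasure P]
    [IsProbabilityMeasure R] {lam : Measure (X × X)} (hl : lam ≤ P.prod R) {W : Set (X × X)}
    (hW : MeasurableSet W) (hW0 : lam W ≠ 0) {A : Set X} (hA : ∀ p ∈ W, p.1 ∈ A) :
    ∃ B : Set X, MeasurableSet B ∧ lam (A ×ˢ B) ≠ 0 ∧
      ∀ b : Set X, MeasurableSet b → R (B ∩ b) ≠ 0 → P.prod R (W ∩ univ ×ˢ b) ≠ 0 := by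
  have hm : Measurable fun t => P ((fun s => (s, t)) ⁻¹' W) := measurable_measure_prodMk_right hW
  set B : Set X := {t | P ((fun s => (s, t)) ⁻¹' W) ≠ 0} with hB
  have hBm : MeasurableSet B := by
    have : B = (fun t => P ((fun s => (s, t)) ⁻¹' W)) ⁻¹' {0}ᶜ := by
      ext t
      simp [hB]
    rw [this]
    exact hm (measurableSet_singleton _).compl
  refine ⟨B, hBm, ?_, ?_⟩
  · have h1 : P.prod R (W ∩ univ ×ˢ Bᶜ) = 0 := by
      rw [Measure.prod_apply_symm (hW.inter (MeasurableSet.univ.prod hBm.compl))]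
      rw [lintegral_eq_zero_iff (measurable_measure_prodMk_right
        (hW.inter (MeasurableSet.univ.prod hBm.compl)))]
      refine Filter.Eventually.of_forall fun t => ?_
      by_cases ht : t ∈ B
      · have : (fun s => (s, t)) ⁻¹' (W ∩ univ ×ˢ Bᶜ) = (∅ : Set X) := by
          ext s
          simp [ht]
        simp [this]
      · have h2 : P ((fun s => (s, t)) ⁻¹' W) = 0 := by
          simpa [hB] using ht
        refine measure_mono_null ?_ h2
        intro s hs
        exact hs.1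
    intro h0
    refine hW0 ?_
    have h3 : W ⊆ (A ×ˢ B) ∪ (W ∩ univ ×ˢ Bᶜ) := by
      rintro ⟨s, t⟩ hst
      by_cases ht : t ∈ B
      · exact Or.inl ⟨hA _ hst, ht⟩
      · exact Or.inr ⟨hst, mem_univ _, ht⟩
    refine measure_mono_null h3 ?_
    refine measure_union_null h0 ?_
    exact le_antisymm ((hl _).trans h1.le) bot_le
  · intro b hb hR h0
    have hm2 : MeasurableSet (W ∩ univ ×ˢ b) := hW.inter (MeasurableSet.univ.prod hb)
    rw [Measure.prod_apply_symm hm2, lintegral_eq_zero_iff (measurable_measure_prodMk_right hm2)]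
      at h0
    refine hR ?_
    refine measure_mono_null ?_ (ae_iff.1 h0)
    rintro t ⟨htB, htb⟩
    have h4 : (fun s => (s, t)) ⁻¹' (W ∩ univ ×ˢ b) = (fun s => (s, t)) ⁻¹' W := by
      ext s
      simp [htb]
    simp only [mem_ofPred_eq, Pi.zero_apply, h4]
    exact htB

/-- adding a condition on the first coordinate -/
lemma step_left {X : Type} [MeasurableSpace X] {P R : Measure X} [IsProbabilityMeasure P]
    [IsProbabilityMeasure R] {lam : Measure (X × X)} (hl : lam ≤ P.prod R) {W : Set (X × X)}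
    (hW : MeasurableSet W) (hW0 : lam W ≠ 0) {B : Set X} (hB : ∀ p ∈ W, p.2 ∈ B) :
    ∃ A : Set X, MeasurableSet A ∧ lam (A ×ˢ B) ≠ 0 ∧
      ∀ a : Set X, MeasurableSet a → P (A ∩ a) ≠ 0 → P.prod R (W ∩ a ×ˢ univ) ≠ 0 := by
  have hm : Measurable fun s => R (Prod.mk s ⁻¹' W) := measurable_measure_prodMk_left hW
  set A : Set X := {s | R (Prod.mk s ⁻¹' W) ≠ 0} with hA
  have hAm : MeasurableSet A := by
    have : A = (fun s => R (Prod.mk s ⁻¹' W)) ⁻¹' {0}ᶜ := by
      ext t
      simp [hA]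
    rw [this]
    exact hm (measurableSet_singleton _).compl
  refine ⟨A, hAm, ?_, ?_⟩
  · have hm1 : MeasurableSet (W ∩ Aᶜ ×ˢ univ) := hW.inter (hAm.compl.prod MeasurableSet.univ)
    have h1 : P.prod R (W ∩ Aᶜ ×ˢ univ) = 0 := by
      rw [Measure.prod_apply hm1, lintegral_eq_zero_iff (measurable_measure_prodMk_left hm1)]
      refine Filter.Eventually.of_forall fun s => ?_
      by_cases hs : s ∈ A
      · have : Prod.mk s ⁻¹' (W ∩ Aᶜ ×ˢ univ) = (∅ : Set X) := by
          ext t
          simp [hs]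
        simp [this]
      · have h2 : R (Prod.mk s ⁻¹' W) = 0 := by
          simpa [hA] using hs
        refine measure_mono_null ?_ h2
        intro t ht
        exact ht.1
    intro h0
    refine hW0 ?_
    have h3 : W ⊆ (A ×ˢ B) ∪ (W ∩ Aᶜ ×ˢ univ) := by
      rintro ⟨s, t⟩ hst
      by_cases hs : s ∈ A
      · exact Or.inl ⟨hs, hB _ hst⟩
      · exact Or.inr ⟨hst, hs, mem_univ _⟩
    refine measure_mono_null h3 ?_
    refine measure_union_null h0 ?_
    exact le_antisymm ((hl _).trans h1.le) bot_le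
  · intro a ha hP h0
    have hm2 : MeasurableSet (W ∩ a ×ˢ univ) := hW.inter (ha.prod MeasurableSet.univ)
    rw [Measure.prod_apply hm2, lintegral_eq_zero_iff (measurable_measure_prodMk_left hm2)]
      at h0
    refine hP ?_
    refine measure_mono_null ?_ (ae_iff.1 h0)
    rintro s ⟨hsA, hsa⟩
    have h4 : Prod.mk s ⁻¹' (W ∩ a ×ˢ univ) = Prod.mk s ⁻¹' W := by
      ext t
      simp [hsa]
    simp only [mem_ofPred_eq, Pi.zero_apply, h4]
    exact hsA

/-- the greedy construction -/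
theorem t_gr : S_gr := by
  intro X _ U V P R _ _ a b F sU sV lam lam' W ha hb hW hl hl' hac hW0 hU hV
  let Wv : List U → List V → Set (X × X) := fun us vs =>
    W ∩ (⋂ v ∈ vs, a v) ×ˢ (⋂ u ∈ us, b u)
  have hWm : ∀ us vs, MeasurableSet (Wv us vs) := fun us vs =>
    hW.inter ((meas_iInter ha vs).prod (meas_iInter hb us))
  let Inv : List U × List V → Prop := fun s =>
    (∀ u ∈ s.1, ∀ v ∈ s.2, F u v) ∧ P.prod R (Wv s.1 s.2) ≠ 0
  have stepU : ∀ (n : ℕ) (us : List U) (vs : List V), Inv (us, vs) →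
      ∃ u, sU u n ∧ Inv (u :: us, vs) := by
    rintro n us vs ⟨h1, h2⟩
    obtain ⟨B, hBm, hB1, hB2⟩ := step_right (R := R) hl (hWm us vs)
      (hac _ (hWm us vs) inter_subset_left h2).1 (A := ⋂ v ∈ vs, a v) (fun p hp => hp.2.1)
    obtain ⟨u, hu1, hu2, hu3⟩ := hU n vs B hBm hB1
    refine ⟨u, hu1, ?_, ?_⟩
    · intro u' hu' v hv
      rcases List.mem_cons.1 hu' with rfl | hu'
      · exact hu2 v hv
      · exact h1 u' hu' v hv
    · have h3 := hB2 (b u) (hb u) hu3
      have h4 : Wv (u :: us) vs = Wv us vs ∩ univ ×ˢ b u := by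
        simp only [Wv, iInter_cons]
        ext ⟨s, t⟩
        simp only [mem_inter_iff, mem_prod, mem_univ]
        tauto
      show P.prod R (Wv (u :: us) vs) ≠ 0
      rw [h4]
      exact h3
  have stepV : ∀ (n : ℕ) (us : List U) (vs : List V), Inv (us, vs) →
      ∃ v, sV v n ∧ Inv (us, v :: vs) := by
    rintro n us vs ⟨h1, h2⟩
    obtain ⟨A, hAm, hA1, hA2⟩ := step_left (R := R) hl' (hWm us vs)
      (hac _ (hWm us vs) inter_subset_left h2).2 (B := ⋂ u ∈ us, b u) (fun p hp => hp.2.2)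
    obtain ⟨v, hv1, hv2, hv3⟩ := hV n us A hAm hA1
    refine ⟨v, hv1, ?_, ?_⟩
    · intro u hu v' hv'
      rcases List.mem_cons.1 hv' with rfl | hv'
      · exact hv2 u hu
      · exact h1 u hu v' hv'
    · have h3 := hA2 (a v) (ha v) hv3
      have h4 : Wv us (v :: vs) = Wv us vs ∩ a v ×ˢ univ := by
        simp only [Wv, iInter_cons]
        ext ⟨s, t⟩
        simp only [mem_inter_iff, mem_prod, mem_univ]
        tauto
      show P.prod R (Wv us (v :: vs)) ≠ 0
      rw [h4]
      exact h3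
  have step : ∀ (n : ℕ) (s : {s : List U × List V // Inv s}),
      ∃ p : U × V, sU p.1 n ∧ sV p.2 n ∧ Inv (p.1 :: s.1.1, p.2 :: s.1.2) := by
    rintro n ⟨⟨us, vs⟩, hs⟩
    obtain ⟨u, hu, hs'⟩ := stepU n us vs hs
    obtain ⟨v, hv, hs''⟩ := stepV n (u :: us) vs hs'
    exact ⟨(u, v), hu, hv, hs''⟩
  choose g hg1 hg2 hg3 using step
  have h00 : Inv ([], []) := by
    refine ⟨by simp, ?_⟩
    show P.prod R (Wv [] []) ≠ 0
    have : Wv [] [] = W := by
      simp [Wv]
    rw [this]
    exact hW0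
  let st : ℕ → {s : List U × List V // Inv s} := fun n =>
    Nat.rec ⟨([], []), h00⟩ (fun n s => ⟨((g n s).1 :: s.1.1, (g n s).2 :: s.1.2), hg3 n s⟩) n
  have hst : ∀ n, st (n + 1) = ⟨((g n (st n)).1 :: (st n).1.1, (g n (st n)).2 :: (st n).1.2),
      hg3 n (st n)⟩ := fun n => rfl
  have hmem : ∀ m i, i < m → (g i (st i)).1 ∈ (st m).1.1 ∧ (g i (st i)).2 ∈ (st m).1.2 := by
    intro m
    induction m with
    | zero => intro i hi; omega
    | succ m ih =>
      intro i hi
      rw [hst]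
      rcases Nat.lt_succ_iff_lt_or_eq.1 hi with h | rfl
      · exact ⟨List.mem_cons_of_mem _ (ih i h).1, List.mem_cons_of_mem _ (ih i h).2⟩
      · exact ⟨List.mem_cons_self, List.mem_cons_self⟩
  refine ⟨fun n => (g n (st n)).1, fun n => (g n (st n)).2, fun i j => ?_,
    fun n => hg1 n (st n), fun n => hg2 n (st n)⟩
  exact (st (max i j + 1)).2.1 _ (hmem (max i j + 1) i (by omega)).1 _
    (hmem (max i j + 1) j (by omega)).2

end Pool.Agent.Q212.SY
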