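import Pool.Agent.Q247.SY.Stm

set_option autoImplicit false

/-!
# One-dimensional theta function, uniformly in the shift (job TH1 of project SY of helper247)
-/

namespace Q212.SY

open Real

theorem summ_shift {a : ℝ} (ha : 0 < a) (x : ℝ) :
    Summable (fun n : ℤ => Real.exp (-a * ((n : ℝ) + x) ^ 2)) := by
  have h := ((summable_jacobiTheta₂_term_iff ((((a * x / π : ℝ) : ℂ)) * Complex.I)
    ((((a / π : ℝ) : ℂ)) * Complex.I)).mpr (by
      simp
      positivity)).norm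
  have h2 := h.mul_right (Real.exp (-a * x ^ 2))
  refine h2.congr fun n => ?_
  rw [norm_jacobiTheta₂_term, ← Real.exp_add]
  congr 1
  have e1 : ((((a / π : ℝ) : ℂ)) * Complex.I).im = a / π := by
    rw [Complex.mul_I_im, Complex.ofReal_re]
  have e2 : ((((a * x / π : ℝ) : ℂ)) * Complex.I).im = a * x / π := by
    rw [Complex.mul_I_im, Complex.ofReal_re]
  rw [e1, e2]
  field_simp
  ring

theorem theta_ne {K s : ℝ} (hK : 0 < K) (hs : 0 < s) (hs1 : s ≤ 1) (n : ℤ) (hn : n ≠ 0) :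
    Real.exp (-(K / s) * (n : ℝ) ^ 2) ≤
      Real.exp (-K / s) * Real.exp K * Real.exp (-K * (n : ℝ) ^ 2) := by
  rw [← Real.exp_add, ← Real.exp_add, Real.exp_le_exp]
  have h1 : (1 : ℝ) ≤ (n : ℝ) ^ 2 := by
    have : (1 : ℤ) ≤ n ^ 2 := by
      have := Int.one_le_abs hn
      nlinarith [sq_abs n, abs_nonneg n]
    exact_mod_cast this
  have h2 : K ≤ K / s := by
    rw [le_div_iff₀ hs]
    nlinarith
  have h3 : -K / s = -(K / s) := by ring
  rw [h3]
  nlinarith

theorem t_TH1 : Q247.SY.S_TH1 := by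
  intro b hb
  set K : ℝ := π ^ 2 / b with hKdef
  have hK : 0 < K := by positivity
  have hsumK : Summable (fun n : ℤ => Real.exp (-K * (n : ℝ) ^ 2)) := by
    simpa using summ_shift hK 0
  refine ⟨K, Real.exp K * (1 + ∑' n : ℤ, Real.exp (-K * (n : ℝ) ^ 2)), hK, ?_, ?_⟩
  · have : 0 ≤ ∑' n : ℤ, Real.exp (-K * (n : ℝ) ^ 2) :=
      tsum_nonneg fun n => (Real.exp_pos _).le
    positivity
  intro s hs hs1 x
  have hsb : 0 < s * b := mul_pos hs hb
  have hsum := summ_shift hsb x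
  have hsum' : Summable (fun n : ℤ => Real.exp (-s * b * ((n : ℝ) + x) ^ 2)) := by
    refine hsum.congr fun n => ?_
    congr 1
    ring
  refine ⟨hsum', ?_⟩
  set a : ℝ := π / (s * b) with ha
  have ha0 : 0 < a := by positivity
  have hq := Complex.tsum_exp_neg_quadratic (a := (a : ℂ)) (by rwa [Complex.ofReal_re])
    (-Complex.I * x)
  -- the right-hand side
  have hR : (∑' n : ℤ, Complex.exp (-π / (a : ℂ) * ((n : ℂ) + Complex.I * (-Complex.I * x)) ^ 2))
      = ((∑' n : ℤ, Real.exp (-s * b * ((n : ℝ) + x) ^ 2) : ℝ) : ℂ) := by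
    rw [Complex.ofReal_tsum]
    apply tsum_congr
    intro n
    rw [Complex.ofReal_exp]
    congr 1
    have h1 : Complex.I * (-Complex.I * (x : ℂ)) = x := by
      rw [neg_mul, mul_neg, ← mul_assoc, Complex.I_mul_I]
      ring
    rw [h1]
    have h2 : (-π / (a : ℂ)) = ((-s * b : ℝ) : ℂ) := by
      rw [ha]
      push_cast
      have hpi : (π : ℂ) ≠ 0 := by exact_mod_cast Real.pi_ne_zero
      have hs0 : (s : ℂ) ≠ 0 := by exact_mod_cast hs.ne'
      have hb0 : (b : ℂ) ≠ 0 := by exact_mod_cast hb.ne'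
      field_simp
    rw [h2]
    push_cast
    ring
  rw [hR] at hq
  have hsq : ((a : ℂ)) ^ (1 / 2 : ℂ) = ((Real.sqrt a : ℝ) : ℂ) := by
    rw [Real.sqrt_eq_rpow, Complex.ofReal_cpow ha0.le]
    norm_num
  rw [hsq] at hq
  have hsa : 0 < Real.sqrt a := Real.sqrt_pos.mpr ha0
  have hsa' : ((Real.sqrt a : ℝ) : ℂ) ≠ 0 := by exact_mod_cast hsa.ne'
  have hq2 : ((∑' n : ℤ, Real.exp (-s * b * ((n : ℝ) + x) ^ 2) : ℝ) : ℂ)
      = ((Real.sqrt a : ℝ) : ℂ) *
        ∑' n : ℤ, Complex.exp (-π * a * (n : ℂ) ^ 2 + 2 * π * (-Complex.I * x) * n) := by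
    rw [hq]
    field_simp
  -- the left-hand side
  have hnorm : ∀ n : ℤ, ‖Complex.exp (-π * a * (n : ℂ) ^ 2 + 2 * π * (-Complex.I * x) * n)‖
      = Real.exp (-(K / s) * (n : ℝ) ^ 2) := by
    intro n
    rw [Complex.norm_exp]
    congr 1
    have h1 : (-π * a * (n : ℂ) ^ 2 + 2 * π * (-Complex.I * x) * n : ℂ)
        = ((-π * a * (n : ℝ) ^ 2 : ℝ) : ℂ) + ((-2 * π * x * n : ℝ) : ℂ) * Complex.I := by
      push_cast
      ring
    rw [h1, Complex.add_re, Complex.ofReal_re, Complex.re_ofReal_mul, Complex.I_re, mul_zero,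
      add_zero, ha, hKdef]
    field_simp
  have hsumc : Summable
      (fun n : ℤ => Complex.exp (-π * a * (n : ℂ) ^ 2 + 2 * π * (-Complex.I * x) * n)) := by
    apply Summable.of_norm
    simp_rw [hnorm]
    have := summ_shift (a := K / s) (by positivity) 0
    simpa using this
  have hsplit := hsumc.tsum_eq_add_tsum_ite 0
  have h0 : Complex.exp (-π * a * ((0 : ℤ) : ℂ) ^ 2 + 2 * π * (-Complex.I * x) * ((0 : ℤ) : ℂ))
      = 1 := by
    simp
  rw [h0] at hsplit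
  have hbound : ‖∑' n : ℤ, ite (n = 0) (0 : ℂ)
      (Complex.exp (-π * a * (n : ℂ) ^ 2 + 2 * π * (-Complex.I * x) * n))‖
      ≤ Real.exp (-K / s) * Real.exp K * ∑' n : ℤ, Real.exp (-K * (n : ℝ) ^ 2) := by
    rw [← tsum_mul_left]
    apply tsum_of_norm_bounded (hsumK.mul_left _).hasSum
    intro n
    split_ifs with hn
    · rw [norm_zero]
      positivity
    · rw [hnorm]
      exact theta_ne hK hs hs1 n hn
  have hfin : ((∑' n : ℤ, Real.exp (-s * b * ((n : ℝ) + x) ^ 2) - Real.sqrt a : ℝ) : ℂ)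
      = ((Real.sqrt a : ℝ) : ℂ) * ∑' n : ℤ, ite (n = 0) (0 : ℂ)
        (Complex.exp (-π * a * (n : ℂ) ^ 2 + 2 * π * (-Complex.I * x) * n)) := by
    rw [Complex.ofReal_sub, hq2, hsplit]
    ring
  have habs : |∑' n : ℤ, Real.exp (-s * b * ((n : ℝ) + x) ^ 2) - Real.sqrt a|
      = Real.sqrt a * ‖∑' n : ℤ, ite (n = 0) (0 : ℂ)
        (Complex.exp (-π * a * (n : ℂ) ^ 2 + 2 * π * (-Complex.I * x) * n))‖ := by
    rw [← Real.norm_eq_abs, ← Complex.norm_real, hfin, norm_mul, Complex.norm_real,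
      Real.norm_of_nonneg hsa.le]
  rw [habs]
  have hT : 0 ≤ ∑' n : ℤ, Real.exp (-K * (n : ℝ) ^ 2) :=
      tsum_nonneg fun n => (Real.exp_pos _).le
  calc Real.sqrt a * ‖∑' n : ℤ, ite (n = 0) (0 : ℂ)
        (Complex.exp (-π * a * (n : ℂ) ^ 2 + 2 * π * (-Complex.I * x) * n))‖
      ≤ Real.sqrt a * (Real.exp (-K / s) * Real.exp K * ∑' n : ℤ, Real.exp (-K * (n : ℝ) ^ 2)) :=
        mul_le_mul_of_nonneg_left hbound hsa.le
    _ ≤ Real.sqrt a * (Real.exp (-K / s) * Real.exp K *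
          (1 + ∑' n : ℤ, Real.exp (-K * (n : ℝ) ^ 2))) := by
        apply mul_le_mul_of_nonneg_left _ hsa.le
        apply mul_le_mul_of_nonneg_left _ (by positivity)
        linarith
    _ = _ := by ring

end Q212.SY
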