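import Pool.Agent.Q247.SY.Stm

set_option autoImplicit false

/-!
# Theta functions of linearly independent families (job THM of project SY of helper247)
-/

namespace Q212.SY

open Real

variable {V : Type} [NormedAddCommGroup V] [InnerProductSpace ℝ V]

/-- The projection to the complement of `u`. -/
noncomputable def pr (u : V) : V →ₗ[ℝ] V :=
  LinearMap.id - (((‖u‖ ^ 2)⁻¹ • (innerₛₗ ℝ u)).smulRight u)

theorem pr_apply (u x : V) : pr u x = x - ((‖u‖ ^ 2)⁻¹ * inner ℝ u x) • u := by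
  simp [pr]

theorem pr_self {u : V} (hu : u ≠ 0) : pr u u = 0 := by
  have : ‖u‖ ^ 2 ≠ 0 := by
    have := norm_pos_iff.mpr hu
    positivity
  rw [pr_apply, real_inner_self_eq_norm_sq, inv_mul_cancel₀ this, one_smul, sub_self]

theorem inner_pr {u : V} (hu : u ≠ 0) (x : V) : inner ℝ u (pr u x) = 0 := by
  have : ‖u‖ ^ 2 ≠ 0 := by
    have := norm_pos_iff.mpr hu
    positivity
  rw [pr_apply, inner_sub_right, inner_smul_right, real_inner_self_eq_norm_sq]
  field_simp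
  ring

theorem norm_add_smul {u : V} (hu : u ≠ 0) (r : ℝ) (w : V) :
    ‖r • u + w‖ ^ 2 = ‖u‖ ^ 2 * (r + (‖u‖ ^ 2)⁻¹ * inner ℝ u w) ^ 2 + ‖pr u w‖ ^ 2 := by
  have h1 : r • u + w = (r + (‖u‖ ^ 2)⁻¹ * inner ℝ u w) • u + pr u w := by
    rw [pr_apply, add_smul]
    abel
  rw [h1, norm_add_sq_real, real_inner_smul_left, inner_pr hu, norm_smul, mul_pow,
    Real.norm_eq_abs, sq_abs]
  ring

theorem linInd_pr {m : ℕ} {γ : Fin (m + 1) → V} (h : LinearIndependent ℝ γ) :
    LinearIndependent ℝ (fun k : Fin m => pr (γ 0) (γ k.succ)) := by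
  rw [Fintype.linearIndependent_iff] at h ⊢
  intro c hc k
  simp only [pr_apply, smul_sub, Finset.sum_sub_distrib, smul_smul] at hc
  rw [← Finset.sum_smul] at hc
  have := h (Fin.cons (-(∑ x, c x * ((‖γ 0‖ ^ 2)⁻¹ * inner ℝ (γ 0) (γ x.succ)))) c) (by
    rw [Fin.sum_univ_succ]
    simp only [Fin.cons_zero, Fin.cons_succ, neg_smul]
    rw [← hc]
    abel) k.succ
  simpa using this

theorem span_pr {m : ℕ} {γ : Fin (m + 1) → V} (h0 : γ 0 ≠ 0) {v : V}
    (hv : v ∈ Submodule.span ℝ (Set.range γ)) :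
    pr (γ 0) v ∈ Submodule.span ℝ (Set.range fun k : Fin m => pr (γ 0) (γ k.succ)) := by
  induction hv using Submodule.span_induction with
  | mem x hx =>
    obtain ⟨k, rfl⟩ := hx
    refine Fin.cases ?_ (fun k => ?_) k
    · rw [pr_self h0]
      exact zero_mem _
    · exact Submodule.subset_span ⟨k, rfl⟩
  | zero => rw [map_zero]; exact zero_mem _
  | add x y _ _ hx hy => rw [map_add]; exact add_mem hx hy
  | smul a x _ hx => rw [map_smul]; exact Submodule.smul_mem _ a hx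

theorem sqrt_split {b s : ℝ} (hb : 0 < b) (hs : 0 < s) :
    Real.sqrt (π / (s * b)) = Real.sqrt (π / b) * (Real.sqrt s)⁻¹ := by
  rw [← Real.sqrt_inv, ← Real.sqrt_mul (by positivity)]
  congr 1
  field_simp

/-- The step of the induction, for numbers. -/
theorem step_num {J T0 T A κ E1 E2 C1 C2 q : ℝ} (hA : 0 ≤ A) (hq : 0 ≤ q) (hκ : 0 ≤ κ)
    (hC1 : 0 ≤ C1) (hC2 : 0 ≤ C2) {E : ℝ} (hE1 : E1 ≤ E) (hE2 : E2 ≤ E) 
    (hE10 : 0 ≤ E1) (hE21 : E2 ≤ 1)
    (h1 : |T - A * T0| ≤ C1 * E1 * A * T0) (h2 : |T0 - κ * q| ≤ C2 * E2 * q) (hJ : J = A * κ * q) :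
    |T - J| ≤ (C1 * (κ + C2) + C2) * E * (A * q) := by
  have hT0 : T0 ≤ (κ + C2) * q := by
    have := (abs_le.mp h2).2
    nlinarith [mul_le_mul_of_nonneg_left hE21 (mul_nonneg hC2 hq)]
  have e1 : T - J = (T - A * T0) + A * (T0 - κ * q) := by
    rw [hJ]; ring
  rw [e1]
  refine (abs_add_le _ _).trans ?_
  rw [abs_mul, abs_of_nonneg hA]
  have h3 : A * |T0 - κ * q| ≤ A * (C2 * E2 * q) := mul_le_mul_of_nonneg_left h2 hA
  have h4 : C1 * E1 * A * T0 ≤ C1 * E1 * A * ((κ + C2) * q) :=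
    mul_le_mul_of_nonneg_left hT0 (by positivity)
  have h5 : C1 * E1 * A * ((κ + C2) * q) ≤ C1 * E * A * ((κ + C2) * q) := by
    gcongr
  have h6 : A * (C2 * E2 * q) ≤ A * (C2 * E * q) := by
    gcongr
  calc |T - A * T0| + A * |T0 - κ * q|
      ≤ C1 * E * A * ((κ + C2) * q) + A * (C2 * E * q) := by linarith
    _ = _ := by ring

theorem t_THM : Q247.SY.S_THM := by
  intro hTH1 V _ _ m
  induction m with
  | zero =>
    intro γ _
    refine ⟨1, 1, 1, one_pos, one_pos, one_pos, ?_⟩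
    intro s hs hs1 v hv
    have hv0 : v = 0 := by
      have : Set.range γ = ∅ := Set.range_eq_empty γ
      rw [this, Submodule.span_empty, Submodule.mem_bot] at hv
      exact hv
    subst hv0
    refine ⟨Summable.of_finite, ?_⟩
    rw [tsum_fintype]
    simp
    positivity
  | succ m ih =>
    intro γ hγ
    have h0 : γ 0 ≠ 0 := hγ.ne_zero 0
    have hb : 0 < ‖γ 0‖ ^ 2 := by
      have := norm_pos_iff.mpr h0
      positivity
    obtain ⟨c1, C1, hc1, hC1, H1⟩ := hTH1 (‖γ 0‖ ^ 2) hb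
    obtain ⟨κ, c2, C2, hκ, hc2, hC2, H2⟩ := ih (fun k => pr (γ 0) (γ k.succ)) (linInd_pr hγ)
    refine ⟨Real.sqrt (π / ‖γ 0‖ ^ 2) * κ, min c1 c2,
      (C1 * (κ + C2) + C2) * Real.sqrt (π / ‖γ 0‖ ^ 2), ?_, lt_min hc1 hc2, ?_, ?_⟩
    · have : 0 < Real.sqrt (π / ‖γ 0‖ ^ 2) := Real.sqrt_pos.mpr (by positivity)
      positivity
    · have : 0 < Real.sqrt (π / ‖γ 0‖ ^ 2) := Real.sqrt_pos.mpr (by positivity)
      positivity
    intro s hs hs1 v hv
    set A : ℝ := Real.sqrt (π / (s * ‖γ 0‖ ^ 2)) with hAdef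
    have hA : 0 ≤ A := Real.sqrt_nonneg _
    obtain ⟨S2, B2⟩ := H2 s hs hs1 (pr (γ 0) v) (span_pr h0 hv)
    -- the two factors
    set w : (Fin m → ℤ) → V := fun n' => ∑ k, (n' k : ℝ) • γ k.succ + v with hw
    set x : (Fin m → ℤ) → ℝ := fun n' => (‖γ 0‖ ^ 2)⁻¹ * inner ℝ (γ 0) (w n') with hx
    set G : (Fin m → ℤ) → ℝ := fun n' => Real.exp (-s * ‖pr (γ 0) (w n')‖ ^ 2) with hG
    set θ : (Fin m → ℤ) → ℤ → ℝ :=
      fun n' n0 => Real.exp (-s * ‖γ 0‖ ^ 2 * ((n0 : ℝ) + x n') ^ 2) with hθ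
    have hGeq : ∀ n' : Fin m → ℤ, Real.exp (-s * ‖∑ k, (n' k : ℝ) • pr (γ 0) (γ k.succ)
        + pr (γ 0) v‖ ^ 2) = G n' := by
      intro n'
      simp only [hG, hw, map_add, map_sum, map_smul]
    simp_rw [hGeq] at S2 B2
    have hG0 : ∀ n', 0 < G n' := fun n' => Real.exp_pos _
    have hθS : ∀ n', Summable (θ n') := fun n' => (H1 s hs hs1 (x n')).1
    have hθB : ∀ n', |∑' n0, θ n' n0 - A| ≤ C1 * Real.exp (-c1 / s) * A :=
      fun n' => (H1 s hs hs1 (x n')).2
    set F : (Fin m → ℤ) × ℤ → ℝ := fun z => G z.1 * θ z.1 z.2 with hF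
    have hFe : ∀ z : ℤ × (Fin m → ℤ), Real.exp (-s * ‖∑ k, ((Fin.cons z.1 z.2 : Fin (m + 1) → ℤ) k
        : ℝ) • γ k + v‖ ^ 2) = F z.swap := by
      intro z
      have e1 : ∑ k, ((Fin.cons z.1 z.2 : Fin (m + 1) → ℤ) k : ℝ) • γ k + v
          = (z.1 : ℝ) • γ 0 + w z.2 := by
        rw [Fin.sum_univ_succ]
        simp only [Fin.cons_zero, Fin.cons_succ, hw]
        abel
      rw [e1, norm_add_smul h0]
      simp only [hF, hG, hθ, hx, Prod.fst_swap, Prod.snd_swap]
      rw [← Real.exp_add]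
      congr 1
      ring
    have hin : ∀ n', ∑' n0, F (n', n0) = G n' * ∑' n0, θ n' n0 := by
      intro n'
      simp only [hF]
      rw [tsum_mul_left]
    have hinS : Summable fun n' => G n' * ∑' n0, θ n' n0 := by
      apply Summable.of_nonneg_of_le (f := fun n' => G n' * (A + C1 * Real.exp (-c1 / s) * A))
      · intro n'
        exact mul_nonneg (hG0 n').le (tsum_nonneg fun n0 => (Real.exp_pos _).le)
      · intro n'
        apply mul_le_mul_of_nonneg_left _ (hG0 n').le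
        have := (abs_le.mp (hθB n')).2
        linarith
      · exact S2.mul_right _
    have hFnn : 0 ≤ F := by
      intro z
      exact mul_nonneg (hG0 z.1).le (Real.exp_pos _).le
    have hF1 : ∀ n', Summable (fun n0 => F (n', n0)) := by
      intro n'
      have := (hθS n').mul_left (G n')
      exact this
    have hFS : Summable F := by
      apply (summable_prod_of_nonneg hFnn).mpr
      refine ⟨hF1, ?_⟩
      simp_rw [hin]
      exact hinS
    have hFS' : Summable (fun z : ℤ × (Fin m → ℤ) => F z.swap) :=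
      (Equiv.prodComm ℤ (Fin m → ℤ)).summable_iff.mpr hFS
    have hcons : Summable (fun n : Fin (m + 1) → ℤ => Real.exp (-s * ‖∑ k, (n k : ℝ) • γ k
        + v‖ ^ 2)) := by
      rw [← (Fin.consEquiv fun _ : Fin (m + 1) => ℤ).summable_iff]
      refine hFS'.congr fun z => ?_
      rw [← hFe]
      rfl
    refine ⟨hcons, ?_⟩
    have htot : ∑' n : Fin (m + 1) → ℤ, Real.exp (-s * ‖∑ k, (n k : ℝ) • γ k + v‖ ^ 2)
        = ∑' n', G n' * ∑' n0, θ n' n0 := by
      rw [← (Fin.consEquiv fun _ : Fin (m + 1) => ℤ).tsum_eq]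
      have e1 : ∑' z : ℤ × (Fin m → ℤ), Real.exp (-s * ‖∑ k,
          (((Fin.consEquiv fun _ : Fin (m + 1) => ℤ) z) k : ℝ) • γ k + v‖ ^ 2)
          = ∑' z : ℤ × (Fin m → ℤ), F z.swap := by
        apply tsum_congr
        intro z
        rw [← hFe]
        rfl
      rw [e1]
      have e2 : ∑' z : ℤ × (Fin m → ℤ), F z.swap = ∑' z, F z :=
        (Equiv.prodComm ℤ (Fin m → ℤ)).tsum_eq F
      rw [e2, hFS.tsum_prod' hF1]
      simp_rw [hin]
    rw [htot]
    have hdiff : |∑' n', G n' * ∑' n0, θ n' n0 - A * ∑' n', G n'|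
        ≤ C1 * Real.exp (-c1 / s) * A * ∑' n', G n' := by
      rw [← tsum_mul_left, ← tsum_mul_left, ← hinS.tsum_sub (S2.mul_left A), ← Real.norm_eq_abs]
      apply tsum_of_norm_bounded (S2.mul_left _).hasSum
      intro n'
      rw [Real.norm_eq_abs]
      have e1 : G n' * ∑' n0, θ n' n0 - A * G n' = G n' * (∑' n0, θ n' n0 - A) := by ring
      rw [e1, abs_mul, abs_of_pos (hG0 n')]
      have := mul_le_mul_of_nonneg_left (hθB n') (hG0 n').le
      calc _ ≤ _ := this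
        _ = _ := by ring
    have hsplit : A = Real.sqrt (π / ‖γ 0‖ ^ 2) * (Real.sqrt s)⁻¹ := sqrt_split hb hs
    have hsq : 0 ≤ (Real.sqrt s)⁻¹ ^ m := by positivity
    have hfin := step_num (J := Real.sqrt (π / ‖γ 0‖ ^ 2) * κ * (Real.sqrt s)⁻¹ ^ (m + 1))
      (E := Real.exp (-(min c1 c2) / s)) hA hsq hκ.le hC1.le hC2.le
      (E1 := Real.exp (-c1 / s)) (E2 := Real.exp (-c2 / s))
      (by
        rw [Real.exp_le_exp]
        have := min_le_left c1 c2
        gcongr)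
      (by
        rw [Real.exp_le_exp]
        have := min_le_right c1 c2
        gcongr)
      (Real.exp_pos _).le
      (by
        rw [Real.exp_le_one_iff]
        have : 0 ≤ c2 / s := by positivity
        have e : -c2 / s = -(c2 / s) := by ring
        rw [e]; linarith)
      hdiff B2 (by rw [hsplit, pow_succ]; ring)
    refine hfin.trans (le_of_eq ?_)
    rw [hsplit, pow_succ]
    ring

end Q212.SY
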