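import Pool.Agent.Q247.SY.Stm

set_option autoImplicit false

/-!
# A finite family of syzygies with equal variances (job VAR of project SY of helper247)
-/

namespace Q212.SY

open NumberField InfinitePlace mixedEmbedding Q247.SY

/-- The number of modulus one which makes `x` positive. -/
noncomputable def uc {𝕜 : Type} [RCLike 𝕜] (x : 𝕜) : 𝕜 :=
  if x = 0 then 1 else (starRingEnd 𝕜 x) / ((‖x‖ : ℝ) : 𝕜)

theorem mul_uc {𝕜 : Type} [RCLike 𝕜] (x : 𝕜) : x * uc x = ((‖x‖ : ℝ) : 𝕜) := by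
  unfold uc
  split_ifs with h
  · simp [h]
  · have h1 : ((‖x‖ : ℝ) : 𝕜) ≠ 0 := by
      rw [Ne, RCLike.ofReal_eq_zero]
      exact norm_ne_zero_iff.mpr h
    rw [mul_div_assoc', RCLike.mul_conj, sq, mul_div_assoc, div_self h1, mul_one]

theorem norm_uc {𝕜 : Type} [RCLike 𝕜] (x : 𝕜) : ‖uc x‖ = 1 := by
  unfold uc
  split_ifs with h
  · simp
  · rw [norm_div, RCLike.norm_conj, RCLike.norm_ofReal, abs_norm, div_self]
    exact norm_ne_zero_iff.mpr h

set_option linter.unusedSectionVars false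

variable {K : Type} [Field K] [NumberField K]

/-- The vectors in the mixed space. -/
noncomputable def zv {n : ℕ} (a : Fin n → 𝓞 K) (c : InfinitePlace K → Fin n → ℝ) (i : Fin n) :
    mixedSpace K :=
  (fun w => uc (embedding_of_isReal w.prop (a i : K)) * c w.1 i,
    fun w => uc (w.1.embedding (a i : K)) * (c w.1 i : ℂ))

theorem norm_zv {n : ℕ} (a : Fin n → 𝓞 K) (c : InfinitePlace K → Fin n → ℝ) (i : Fin n)
    (w : InfinitePlace K) : normAtPlace w (zv a c i) = |c w i| := by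
  rcases isReal_or_isComplex w with hw | hw
  · rw [normAtPlace_apply_of_isReal hw]
    simp only [zv]
    rw [norm_mul, norm_uc, one_mul, Real.norm_eq_abs]
  · rw [normAtPlace_apply_of_isComplex hw]
    simp only [zv]
    rw [norm_mul, norm_uc, one_mul, Complex.norm_real, Real.norm_eq_abs]

theorem sum_zv {n : ℕ} (a : Fin n → 𝓞 K) (c : InfinitePlace K → Fin n → ℝ)
    (h : ∀ w : InfinitePlace K, ∑ i, w (a i : K) * c w i = 0) :
    ∑ i, mixedEmbedding K (a i : K) * zv a c i = 0 := by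
  refine Prod.ext ?_ ?_
  · funext w
    rw [Prod.fst_sum, Finset.sum_apply]
    have e1 : ∀ i, (mixedEmbedding K (a i : K) * zv a c i).1 w = w.1 (a i : K) * c w.1 i := by
      intro i
      rw [Prod.fst_mul, Pi.mul_apply, mixedEmbedding_apply_isReal]
      simp only [zv]
      rw [← mul_assoc, mul_uc, norm_embedding_of_isReal]
      simp
    simp_rw [e1]
    exact h w.1
  · funext w
    rw [Prod.snd_sum, Finset.sum_apply]
    have e1 : ∀ i, (mixedEmbedding K (a i : K) * zv a c i).2 w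
        = ((w.1 (a i : K) * c w.1 i : ℝ) : ℂ) := by
      intro i
      rw [Prod.snd_mul, Pi.mul_apply, mixedEmbedding_apply_isComplex]
      simp only [zv]
      rw [← mul_assoc, mul_uc, norm_embedding_eq]
      simp
    simp_rw [e1]
    rw [← Complex.ofReal_sum, h w.1]
    simp

theorem syz_hv {n : ℕ} (a : Fin n → 𝓞 K) (j k : Fin n) : IsSyz a (hv a j k) := by
  refine ⟨fun j' k' => if j' = j ∧ k' = k then 1 else 0, fun i => ?_⟩
  rw [Finset.sum_eq_single j, Finset.sum_eq_single k]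
  · simp
  · intro k' _ hk'
    simp [hk']
  · intro h; exact absurd (Finset.mem_univ _) h
  · intro j' _ hj'
    simp [hj']
  · intro h; exact absurd (Finset.mem_univ _) h

theorem strong_ne {n : ℕ} {a : Fin n → 𝓞 K} (hS : Strong a) (i0 : Fin n) : ∃ i, a i ≠ 0 := by
  by_contra hcon
  push Not at hcon
  obtain ⟨w⟩ := (inferInstance : Nonempty (InfinitePlace K))
  have := hS w i0
  simp [hcon] at this

/-- Choice of `δ`. -/
theorem exists_delta {n : ℕ} {a : Fin n → 𝓞 K} (hS : Strong a) :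
    ∃ δ : ℝ, 0 < δ ∧ ∀ (w : InfinitePlace K) (k : Fin n),
      w (a k : K) * Real.sqrt (1 + δ) ≤ ∑ j ∈ Finset.univ.erase k, w (a j : K) := by
  have h1 : ∀ (w : InfinitePlace K) (k : Fin n), ∀ᶠ δ : ℝ in nhdsWithin 0 (Set.Ioi 0),
      w (a k : K) * Real.sqrt (1 + δ) < ∑ j ∈ Finset.univ.erase k, w (a j : K) := by
    intro w k
    have hc : Filter.Tendsto (fun δ : ℝ => w (a k : K) * Real.sqrt (1 + δ)) (nhds 0)
        (nhds (w (a k : K) * Real.sqrt (1 + 0))) := by
      have : Continuous (fun δ : ℝ => w (a k : K) * Real.sqrt (1 + δ)) := by fun_prop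
      exact this.tendsto 0
    rw [add_zero, Real.sqrt_one, mul_one] at hc
    exact (hc.mono_left nhdsWithin_le_nhds).eventually (gt_mem_nhds (hS w k))
  have h2 : ∀ᶠ δ : ℝ in nhdsWithin 0 (Set.Ioi 0), ∀ (w : InfinitePlace K) (k : Fin n),
      w (a k : K) * Real.sqrt (1 + δ) < ∑ j ∈ Finset.univ.erase k, w (a j : K) := by
    rw [Filter.eventually_all]
    intro w
    rw [Filter.eventually_all]
    exact h1 w
  obtain ⟨δ, hδ, hpos⟩ := (h2.and self_mem_nhdsWithin).exists
  exact ⟨δ, hpos, fun w k => (hδ w k).le⟩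

/-- Squares of close numbers. -/
theorem sq_close {x c ε M : ℝ} (h : |x - abs c| ≤ ε) (hε1 : ε ≤ 1) (hM : |c| ≤ M) :
    |x ^ 2 - c ^ 2| ≤ ε * (2 * M + 1) := by
  have h0 : 0 ≤ ε := (abs_nonneg _).trans h
  have e1 : x ^ 2 - c ^ 2 = (x - abs c) * (x + abs c) := by
    rw [← sq_abs c]; ring
  rw [e1, abs_mul]
  have h2 : |x + abs c| ≤ 2 * M + 1 := by
    have h3 : x + abs c = (x - abs c) + 2 * abs c := by ring
    rw [h3]
    refine (abs_add_le _ _).trans ?_
    rw [abs_mul, abs_abs, abs_two]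
    linarith
  exact mul_le_mul h h2 (abs_nonneg _) h0

/-- The two syzygies for the index `k`. -/
theorem two_syz (hR : S_ROUND) (hPOLY : S_POLY) (hAPX : S_APX) {n : ℕ} {a : Fin n → 𝓞 K}
    (hS : Strong a) {δ : ℝ} (hδ : 0 < δ)
    (hδS : ∀ (w : InfinitePlace K) (k : Fin n),
      w (a k : K) * Real.sqrt (1 + δ) ≤ ∑ j ∈ Finset.univ.erase k, w (a j : K))
    {η : ℝ} (hη : 0 < η) (k : Fin n) :
    ∃ (q : Bool → ℕ) (x : Bool → Fin n → 𝓞 K), (∀ b, 0 < q b) ∧ (∀ b, IsSyz a (x b)) ∧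
      ∀ (w : InfinitePlace K) (i : Fin n),
        |((w (x true i : K) / q true) ^ 2 + (w (x false i : K) / q false) ^ 2)
          - (1 + if i = k then δ else 0)| ≤ η := by
  set ρ : Fin n → ℝ := fun i => 1 + if i = k then δ else 0 with hρ
  have hρ1 : ∀ i, 1 ≤ ρ i := by
    intro i
    simp only [hρ]
    split_ifs <;> linarith
  have hρ2 : ∀ i, ρ i ≤ 1 + δ := by
    intro i
    simp only [hρ]
    split_ifs <;> linarith
  have hρs : ∀ i, 1 ≤ Real.sqrt (ρ i) := fun i => Real.one_le_sqrt.mpr (hρ1 i)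
  have hpoly : ∀ w : InfinitePlace K, ∃ u : Fin n → ℂ, (∀ i, ‖u i‖ = 1) ∧
      ∑ i, ((w (a i : K) * Real.sqrt (ρ i) : ℝ) : ℂ) * u i = 0 := by
    intro w
    apply hPOLY n (fun i => w (a i : K) * Real.sqrt (ρ i))
    · intro i
      exact mul_nonneg (apply_nonneg w _) (Real.sqrt_nonneg _)
    · intro i
      have h2 : ∑ j ∈ Finset.univ.erase i, w (a j : K)
          ≤ ∑ j ∈ Finset.univ.erase i, w (a j : K) * Real.sqrt (ρ j) := by
        apply Finset.sum_le_sum
        intro j _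
        exact le_mul_of_one_le_right (apply_nonneg w _) (hρs j)
      refine le_trans ?_ h2
      by_cases hik : i = k
      · have : ρ i = 1 + δ := by simp [hρ, hik]
        rw [this]
        exact hδS w i
      · have : ρ i = 1 := by simp [hρ, hik]
        rw [this, Real.sqrt_one, mul_one]
        exact (hS w i).le
  choose u hu1 hu2 using hpoly
  obtain ⟨i0, hi0⟩ := strong_ne hS k
  -- the sizes
  set M : ℝ := Real.sqrt (1 + δ) with hM
  have hM0 : 0 ≤ M := Real.sqrt_nonneg _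
  have hML : ∀ i, Real.sqrt (ρ i) ≤ M := fun i => Real.sqrt_le_sqrt (hρ2 i)
  set ε : ℝ := min 1 (η / (2 * (2 * M + 1))) with hε
  have hε0 : 0 < ε := lt_min one_pos (by positivity)
  have hεη : 2 * (ε * (2 * M + 1)) ≤ η := by
    have : ε ≤ η / (2 * (2 * M + 1)) := min_le_right _ _
    rw [le_div_iff₀ (by positivity)] at this
    linarith
  have key : ∀ f : ℂ → ℝ, (∀ (r : ℝ) (z : ℂ), f ((r : ℂ) * z) = r * f z) →
      (∀ s : Finset (Fin n), ∀ g : Fin n → ℂ, f (∑ i ∈ s, g i) = ∑ i ∈ s, f (g i)) →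
      (∀ z, |f z| ≤ ‖z‖) →
      ∃ q : ℕ, 0 < q ∧ ∃ x : Fin n → 𝓞 K, IsSyz a x ∧
        ∀ i, ∀ w : InfinitePlace K,
          |(w (x i : K) / q) ^ 2 - (Real.sqrt (ρ i) * f (u w i)) ^ 2| ≤ ε * (2 * M + 1) := by
    intro f hf1 hf2 hf3
    have hsum : ∀ w : InfinitePlace K,
        ∑ i, w (a i : K) * (Real.sqrt (ρ i) * f (u w i)) = 0 := by
      intro w
      have h := congrArg f (hu2 w)
      rw [hf2] at h
      have h0 : f 0 = 0 := by
        have := hf1 0 0
        simpa using this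
      rw [h0] at h
      rw [← h]
      apply Finset.sum_congr rfl
      intro i _
      rw [hf1]
      ring
    obtain ⟨q, hq, x, hx, hb⟩ := hAPX hR K n a
      (zv a fun w i => Real.sqrt (ρ i) * f (u w i)) ⟨i0, hi0⟩ (sum_zv a _ hsum) ε hε0
    refine ⟨q, hq, x, hx, fun i w => ?_⟩
    apply sq_close _ (min_le_left _ _)
    · rw [abs_mul, abs_of_nonneg (Real.sqrt_nonneg _)]
      have h1 := hf3 (u w i)
      rw [hu1] at h1
      calc Real.sqrt (ρ i) * |f (u w i)| ≤ Real.sqrt (ρ i) * 1 :=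
            mul_le_mul_of_nonneg_left h1 (Real.sqrt_nonneg _)
        _ ≤ M := by rw [mul_one]; exact hML i
    · have := hb i w
      rwa [norm_zv] at this
  obtain ⟨q1, hq1, x1, hx1, hb1⟩ := key Complex.re (fun r z => by simp)
    (fun s g => Complex.re_sum s g) Complex.abs_re_le_norm
  obtain ⟨q2, hq2, x2, hx2, hb2⟩ := key Complex.im (fun r z => by simp)
    (fun s g => Complex.im_sum s g) Complex.abs_im_le_norm
  refine ⟨fun b => if b then q1 else q2, fun b => if b then x1 else x2, ?_, ?_, ?_⟩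
  · intro b
    cases b
    · simpa using hq2
    · simpa using hq1
  · intro b
    cases b
    · simpa using hx2
    · simpa using hx1
  · intro w i
    have e1 : ρ i = (Real.sqrt (ρ i) * (u w i).re) ^ 2 + (Real.sqrt (ρ i) * (u w i).im) ^ 2 := by
      rw [mul_pow, mul_pow, Real.sq_sqrt (by linarith [hρ1 i])]
      have h1 := hu1 w i
      have h2 : (u w i).re ^ 2 + (u w i).im ^ 2 = 1 := by
        have h3 := Complex.sq_norm (u w i)
        rw [h1, Complex.normSq_apply] at h3
        linarith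
      calc ρ i = ρ i * 1 := by ring
        _ = ρ i * ((u w i).re ^ 2 + (u w i).im ^ 2) := by rw [h2]
        _ = _ := by ring
    have h3 := hb1 i w
    have h4 := hb2 i w
    simp only [if_true, Bool.false_eq_true, if_false]
    have e2 : ((w (x1 i : K) / q1) ^ 2 + (w (x2 i : K) / q2) ^ 2) - ρ i
        = ((w (x1 i : K) / q1) ^ 2 - (Real.sqrt (ρ i) * (u w i).re) ^ 2)
          + ((w (x2 i : K) / q2) ^ 2 - (Real.sqrt (ρ i) * (u w i).im) ^ 2) := by
      conv_lhs => rw [e1]
      ring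
    rw [e2]
    refine (abs_add_le _ _).trans ?_
    linarith

/-- The sum of the squares of the standard syzygies. -/
noncomputable def hh {n : ℕ} (a : Fin n → 𝓞 K) (w : InfinitePlace K) (i : Fin n) : ℝ :=
  ∑ j, ∑ k, (w ((hv a j k i : 𝓞 K) : K)) ^ 2

theorem hh_nonneg {n : ℕ} (a : Fin n → 𝓞 K) (w : InfinitePlace K) (i : Fin n) :
    0 ≤ hh a w i :=
  Finset.sum_nonneg fun _ _ => Finset.sum_nonneg fun _ _ => sq_nonneg _

theorem exists_M {n : ℕ} (H : InfinitePlace K → Fin n → ℝ) :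
    ∃ M : ℝ, 0 < M ∧ ∀ w i, H w i ≤ M := by
  obtain ⟨M, hM⟩ := Finite.exists_le (fun z : InfinitePlace K × Fin n => H z.1 z.2)
  exact ⟨max M 1, lt_max_of_lt_right one_pos, fun w i => (hM (w, i)).trans (le_max_left _ _)⟩

theorem t_VAR : S_VAR := by
  intro hR hPOLY hPERT hAPX K _ _ n a hS
  rcases Nat.eq_zero_or_pos n with hn | hn
  · subst hn
    exact ⟨PEmpty, inferInstance, fun l => l.elim, fun l => l.elim, fun l => l.elim,
      fun j => j.elim0, fun l => l.elim, fun i => i.elim0⟩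
  obtain ⟨δ, hδ, hδS⟩ := exists_delta hS
  obtain ⟨η, hη, hPE⟩ := hPERT n δ hδ
  choose q x hq hx hqx using fun k => two_syz hR hPOLY hAPX hS hδ hδS hη k
  -- the size of the standard syzygies
  obtain ⟨M, hM0, hMle⟩ := exists_M (hh a)
  set ε : ℝ := η / M with hε
  have hε0 : 0 < ε := by positivity
  have hr : ∀ (w : InfinitePlace K) (i : Fin n),
      |(1 - ε * hh a w i) - 1| ≤ η := by
    intro w i
    have h0 : 0 ≤ hh a w i := hh_nonneg a w i
    have e1 : (1 - ε * hh a w i) - 1 = -(ε * hh a w i) := by ring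
    rw [e1, abs_neg, abs_of_nonneg (by positivity)]
    calc ε * hh a w i ≤ ε * M :=
          mul_le_mul_of_nonneg_left (hMle w i) hε0.le
      _ = η := by rw [hε]; field_simp
  have hc : ∀ w : InfinitePlace K, ∃ c : Fin n → ℝ, (∀ k, 0 < c k) ∧
      ∀ i, ∑ k, c k * ((w (x k true i : K) / q k true) ^ 2 + (w (x k false i : K) / q k false) ^ 2)
        = 1 - ε * hh a w i := fun w =>
    hPE (fun k i => (w (x k true i : K) / q k true) ^ 2 + (w (x k false i : K) / q k false) ^ 2)
      (fun k i => hqx k w i) (fun i => 1 - ε * hh a w i)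
      (fun i => hr w i)
  choose c hc0 hc1 using hc
  refine ⟨(Fin n × Bool) ⊕ (Fin n × Fin n), inferInstance,
    Sum.elim (fun l => x l.1 l.2) (fun l => hv a l.1 l.2),
    fun l w => Sum.elim (fun l => c w l.1 / (q l.1 l.2 : ℝ) ^ 2) (fun _ => ε) l, ?_, ?_, ?_, ?_⟩
  · rintro (l | l)
    · exact hx l.1 l.2
    · exact syz_hv a l.1 l.2
  · intro j k
    exact ⟨Sum.inr (j, k), rfl⟩
  · rintro (l | l) w
    · simp only [Sum.elim_inl]
      have h1 := hq l.1 l.2
      have h2 := hc0 w l.1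
      positivity
    · exact hε0
  · intro i w
    rw [Fintype.sum_sum_type]
    simp only [Sum.elim_inl, Sum.elim_inr]
    rw [Fintype.sum_prod_type, Fintype.sum_prod_type]
    simp only [Fintype.sum_bool]
    have e1 : ∑ k, (c w k / (q k true : ℝ) ^ 2 * (w (x k true i : K)) ^ 2
        + c w k / (q k false : ℝ) ^ 2 * (w (x k false i : K)) ^ 2)
        = 1 - ε * hh a w i := by
      rw [← hc1 w i]
      apply Finset.sum_congr rfl
      intro k _
      rw [div_pow, div_pow]
      ring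
    have e2 : ∑ j, ∑ k, ε * (w ((hv a j k i : 𝓞 K) : K)) ^ 2
        = ε * hh a w i := by
      simp_rw [hh, Finset.mul_sum]
    rw [e1, e2]
    ring

end Q212.SY
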